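import Pool.Agent.PRc.Defs

/-!
# Groups presented over finite fields: definitions

`elt t a`: the element `∑ a_l t ^ l`. `IsField p s b K t`: `K` is a field with `p ^ s` elements and
`t` is an element of `K` with `t ^ s + ∑ b_l t ^ l = 0` such that every element of `K` is
`∑ a_l t ^ l` with natural numbers `a_l` (`l < s`). `Presents c X E F G cls`: the group `G` is
nilpotent of class at most `c`, the map `cls` maps the set `X` onto `G`, products are given by `F`
and equality by `E`. `Holds φ K x`: the first-order formula `φ` of the language of rings holds in the
field `K` for `x`. `FoPresents`: the same with first-order formulas `X`, `E` and functions `F` for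
vectors with `d` coordinates and with `k` parameters.
-/

set_option autoImplicit false

noncomputable section

namespace Pool.Agent.GOr

/-- The element `∑ a_l t ^ l` (`l < s`) of `K`. -/
def elt {K : Type} [Field K] {s : ℕ} (t : K) (a : Fin s → ℕ) : K :=
  ∑ l : Fin s, (a l : K) * t ^ (l : ℕ)

/-- `p` is prime, `K` is a field with `p ^ s` elements and `t` is an element of `K` with
`t ^ s + ∑ b_l t ^ l = 0` (sum over `l < s`) such that every element of `K` is `∑ a_l t ^ l` with
natural numbers `a_l`. -/
structure IsField (p s : ℕ) (b : Fin s → ℕ) (K : Type) [Field K] (t : K) : Prop where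
  prime : p.Prime
  card : Nat.card K = p ^ s
  root : t ^ s + elt t b = 0
  span : ∀ x : K, ∃ a : Fin s → ℕ, elt t a = x

/-- The group `G` is nilpotent of class at most `c`; it is the image of the set `X` under the map
`cls`; for `x`, `y` in `X` also `F x y` is in `X` and `cls (F x y)` is the product of `cls x` and
`cls y`; and `E x y` means that `cls x` and `cls y` are equal. -/
structure Presents {V : Type} (c : ℕ) (X : V → Prop) (E : V → V → Prop) (F : V → V → V)
    (G : Type) [Group G] (cls : V → G) : Prop where
  nil : Subgroup.upperCentralSeries G c = ⊤
  onto : ∀ g, ∃ x, X x ∧ cls x = g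
  law : ∀ x y, X x → X y → X (F x y) ∧ cls (F x y) = cls x * cls y
  eq : ∀ x y, X x → X y → (E x y ↔ cls x = cls y)

/-- The first-order formula `φ` of the language of rings holds in the field `K` for `x`. -/
def Holds {α : Type} (φ : FirstOrder.Language.ring.Formula α) (K : Type) [Field K]
    (x : α → K) : Prop :=
  letI := FirstOrder.Ring.compatibleRingOfRing K
  φ.Realize x

/-- `G` is presented over the field `K` by the first-order formulas `X` (domain) and `E` (equality)
and the functions `F` (coordinates of the product), with the parameters `y`. -/
def FoPresents {d k : ℕ} (c : ℕ) (X : FirstOrder.Language.ring.Formula (Fin d ⊕ Fin k))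
    (E : FirstOrder.Language.ring.Formula (Fin d ⊕ Fin d ⊕ Fin k))
    (F : Fin d → PRc.FF (Fin d ⊕ Fin d ⊕ Fin k)) (K : Type) [Field K] (y : Fin k → K)
    (G : Type) [Group G] (cls : (Fin d → K) → G) : Prop :=
  Presents c (fun x => Holds X K (Sum.elim x y))
    (fun x x' => Holds E K (Sum.elim x (Sum.elim x' y)))
    (fun x x' i => F i K (Sum.elim x (Sum.elim x' y))) G cls

end Pool.Agent.GOr
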