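import Pool.Agent.PRc.Ex
import Pool.Agent.GOr.Defs

/-!
# Isomorphic fields, and transport of presentations along surjective maps
-/

set_option autoImplicit false

noncomputable section

namespace Pool.Agent.GOr

open Polynomial Pool.Agent.PRc

theorem prf_iso {ι : Type} {F : FF ι} (hF : PRF F) {k k' : Type} [Field k] [Field k']
    (f : k ≃+* k') (x : ι → k) : f (F k x) = F k' (fun i => f (x i)) := by
  induction hF with
  | var i => rfl
  | int z => simp
  | add _ _ ih ih' => rw [map_add, ih, ih']
  | mul _ _ ih ih' => rw [map_mul, ih, ih']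
  | inv _ ih => rw [map_inv₀, ih]
  | @ite F G H _ _ _ ih1 ih2 ih3 =>
    beta_reduce
    by_cases h : F k x = 0
    · have h' : F k' (fun i => f (x i)) = 0 := by rw [← ih1, h, map_zero]
      rw [if_pos h, if_pos h', ih2]
    · have h' : ¬ F k' (fun i => f (x i)) = 0 := by
        rw [← ih1, map_eq_zero_iff f f.injective]
        exact h
      rw [if_neg h, if_neg h', ih3]

theorem prd_iso {ι : Type} {P : FR ι} (hP : PRD P) {k k' : Type} [Field k] [Field k']
    (f : k ≃+* k') (x : ι → k) : P k x ↔ P k' (fun i => f (x i)) := by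
  have h := prf_iso hP f x
  beta_reduce at h
  constructor
  · intro h1
    by_contra h2
    rw [if_pos h1, if_neg h2, map_one] at h
    exact one_ne_zero h
  · intro h2
    by_contra h1
    rw [if_neg h1, if_pos h2, map_zero] at h
    exact zero_ne_one h

theorem prq_iso {ι : Type} {P : FR ι} (hP : PRQ P) {k k' : Type} [Field k] [Field k']
    (f : k ≃+* k') : ∀ x : ι → k, P k x ↔ P k' (fun i => f (x i)) := by
  induction hP with
  | base h => exact prd_iso h f
  | not _ ih => exact fun x => not_congr (ih x)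
  | and _ _ ih ih' => exact fun x => and_congr (ih x) (ih' x)
  | @ex ι κ _ P _ ih =>
    intro x
    constructor
    · rintro ⟨z, hz⟩
      refine ⟨fun i => f (z i), ?_⟩
      have h := (ih (Sum.elim x z)).1 hz
      have e : (fun i => f (Sum.elim x z i)) = Sum.elim (fun i => f (x i)) fun i => f (z i) := by
        funext i
        rcases i with i | i <;> rfl
      rwa [e] at h
    · rintro ⟨z, hz⟩
      refine ⟨fun i => f.symm (z i), (ih (Sum.elim x fun i => f.symm (z i))).2 ?_⟩
      have e : (fun i => f (Sum.elim x (fun i => f.symm (z i)) i)) =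
          Sum.elim (fun i => f (x i)) z := by
        funext i
        rcases i with i | i
        · rfl
        · exact f.apply_symm_apply (z i)
      rwa [e]

section

variable {V V' : Type} {c : ℕ} {X : V → Prop} {E : V → V → Prop} {F : V → V → V}
  {X' : V' → Prop} {E' : V' → V' → Prop} {F' : V' → V' → V'} {G : Type} [Group G]

theorem Presents.pull {cls : V → G} (h : Presents c X E F G cls) {u : V' → V}
    (hu : Function.Surjective u) (hX : ∀ x, X' x ↔ X (u x))
    (hE : ∀ x y, E' x y ↔ E (u x) (u y)) (hF : ∀ x y, u (F' x y) = F (u x) (u y)) :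
    Presents c X' E' F' G fun x => cls (u x) where
  nil := h.nil
  onto g := by
    obtain ⟨y, hy, e⟩ := h.onto g
    obtain ⟨x, rfl⟩ := hu y
    exact ⟨x, (hX x).2 hy, e⟩
  law x y hx hy := by
    obtain ⟨h1, h2⟩ := h.law (u x) (u y) ((hX x).1 hx) ((hX y).1 hy)
    rw [← hF] at h1 h2
    exact ⟨(hX _).2 h1, h2⟩
  eq x y hx hy := (hE x y).trans (h.eq _ _ ((hX x).1 hx) ((hX y).1 hy))

theorem Presents.push {cls' : V' → G} (h : Presents c X' E' F' G cls') {u : V' → V}
    (hu : Function.Surjective u) (hX : ∀ x, X' x ↔ X (u x))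
    (hE : ∀ x y, E' x y ↔ E (u x) (u y)) (hF : ∀ x y, u (F' x y) = F (u x) (u y)) :
    ∃ cls : V → G, Presents c X E F G cls := by
  have key : ∀ x x', X' x → X' x' → u x = u x' → cls' x = cls' x' := by
    intro x x' hx hx' e
    rw [← h.eq x x' hx hx', hE, e, ← hE x' x', h.eq x' x' hx' hx']
  have hr : ∀ y, u (Function.surjInv hu y) = y := Function.surjInv_eq hu
  have hX' : ∀ y, X' (Function.surjInv hu y) ↔ X y := fun y => by rw [hX, hr]
  refine ⟨fun y => cls' (Function.surjInv hu y), h.nil, fun g => ?_, fun x y hx hy => ?_,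
    fun x y hx hy => ?_⟩
  · obtain ⟨x, hx, e⟩ := h.onto g
    refine ⟨u x, (hX x).1 hx, ?_⟩
    rw [← e]
    exact key _ _ ((hX' _).2 ((hX x).1 hx)) hx (hr _)
  · obtain ⟨h1, h2⟩ := h.law _ _ ((hX' x).2 hx) ((hX' y).2 hy)
    have e : u (F' (Function.surjInv hu x) (Function.surjInv hu y)) = F x y := by
      rw [hF, hr, hr]
    have h3 : X (F x y) := by
      rw [← e]
      exact (hX _).1 h1
    refine ⟨h3, ?_⟩
    rw [← h2]
    exact key _ _ ((hX' _).2 h3) h1 (by rw [hr, e])
  · have h1 := h.eq _ _ ((hX' x).2 hx) ((hX' y).2 hy)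
    rw [← h1, hE, hr, hr]

end

end Pool.Agent.GOr
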