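import Pool.Agent.GOr.Fam
import Pool.Agent.GOr.Iso
import Pool.Agent.FOG.Card

/-!
# First-order families of nilpotent groups over extensions of prime fields have definable orders

The parameters are elements of the extension, given by their coordinates.
-/

set_option autoImplicit false

noncomputable section

namespace Pool.Agent.GOr

open Polynomial Pool.Agent.PRc Pool.Agent.Grz Pool.Agent.ECD Pool.Agent.Cov Pool.Agent.FOG
open scoped Classical

section

variable {δ ε : Type} {s : ℕ} {D e : ℕ} (eδ : Fin D ≃ δ × Fin s)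
  (eε : Fin e ≃ (ε × Fin s) ⊕ Fin s)

/-- coordinates of the first block -/
private def j1 {κ : Type} (eδ : Fin D ≃ δ × Fin s) (i : δ) (l : Fin s) : FF (Fin D ⊕ κ) :=
  fun _ _ u => u (Sum.inl (eδ.symm (i, l)))

private def j2 {κ κ' : Type} (eδ : Fin D ≃ δ × Fin s) (i : δ) (l : Fin s) :
    FF (κ' ⊕ Fin D ⊕ κ) :=
  fun _ _ u => u (Sum.inr (Sum.inl (eδ.symm (i, l))))

/-- the parameters -/
private def jp {κ : Type} (J : Fin e → κ) (i : ε) (l : Fin s) : FF κ :=
  fun _ _ u => u (J (eε.symm (Sum.inl (i, l))))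

private def jh {κ : Type} (J : Fin e → κ) (l : Fin s) : FF κ :=
  fun _ _ u => u (J (eε.symm (Sum.inr l)))

private theorem j1_pr {κ : Type} (i : δ) (l : Fin s) : PRF (j1 (κ := κ) eδ i l) := PRF.var _
private theorem j2_pr {κ κ' : Type} (i : δ) (l : Fin s) : PRF (j2 (κ := κ) (κ' := κ') eδ i l) :=
  PRF.var _

private theorem jp_pr {κ : Type} (J : Fin e → κ) (i : ε) (l : Fin s) :
    PRF (jp eε J i l) := PRF.var _

private theorem jh_pr {κ : Type} (J : Fin e → κ) (l : Fin s) : PRF (jh (ε := ε) eε J l) :=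
  PRF.var _

/-- substitution for relations and functions with one block -/
private def sX : ((δ ⊕ ε) × Fin s) ⊕ Fin s → FF (Fin D ⊕ Fin e)
  | .inl (.inl i, l) => j1 eδ i l
  | .inl (.inr i, l) => jp eε Sum.inr i l
  | .inr l => jh eε Sum.inr l

private def sE : ((δ ⊕ δ ⊕ ε) × Fin s) ⊕ Fin s → FF (Fin D ⊕ Fin D ⊕ Fin e)
  | .inl (.inl i, l) => j1 eδ i l
  | .inl (.inr (.inl i), l) => j2 eδ i l
  | .inl (.inr (.inr i), l) => jp eε (fun j => Sum.inr (Sum.inr j)) i l
  | .inr l => jh eε (fun j => Sum.inr (Sum.inr j)) l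

private theorem sX_pr (j : ((δ ⊕ ε) × Fin s) ⊕ Fin s) : PRF (sX eδ eε j) := by
  rcases j with ⟨i | i, l⟩ | l
  · exact j1_pr eδ i l
  · exact jp_pr eε _ i l
  · exact jh_pr eε _ l

private theorem sE_pr (j : ((δ ⊕ δ ⊕ ε) × Fin s) ⊕ Fin s) : PRF (sE eδ eε j) := by
  rcases j with ⟨i | i | i, l⟩ | l
  · exact j1_pr eδ i l
  · exact j2_pr eδ i l
  · exact jp_pr eε (fun j => Sum.inr (Sum.inr j)) i l
  · exact jh_pr eε (fun j => Sum.inr (Sum.inr j)) l

end

/-- the parameters in one family -/
def un {ε : Type} {s : ℕ} (a : ε → Fin s → ℕ) (b : Fin s → ℕ) : (ε × Fin s) ⊕ Fin s → ℕ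
  | .inl i => a i.1 i.2
  | .inr l => b l

/-- the element of the extension with the coordinates `a l` -/
def el {p s : ℕ} [Fact p.Prime] (h : (ZMod p)[X]) (a : Fin s → ℕ) : AdjoinRoot h :=
  PRc.ext h fun l => (a l : ZMod p)

open Classical in
/-- **The order of a first-order family of nilpotent groups over extensions of prime fields is
definable.** -/
theorem card_n (c : ℕ) {δ ε : Type} [Finite δ] [Finite ε] (s : ℕ) (hs : 0 < s) {X : FR (δ ⊕ ε)}
    {E : FR (δ ⊕ δ ⊕ ε)} {F : δ → FF (δ ⊕ δ ⊕ ε)} (hX : PRQ X) (hE : PRQ E)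
    (hF : ∀ i, PRF (F i)) :
    ∃ N : ℕ → (Fin s → ℕ) → (ε → Fin s → ℕ) → ℕ,
      (∀ {n : ℕ} {p : (Fin n → ℕ) → ℕ} {b : Fin s → (Fin n → ℕ) → ℕ}
        {a : ε → Fin s → (Fin n → ℕ) → ℕ}, DFun n p → (∀ l, DFun n (b l)) →
        (∀ i l, DFun n (a i l)) →
        DFun n (fun v => N (p v) (fun l => b l v) fun i l => a i l v)) ∧
      ∀ (p : ℕ) [Fact p.Prime] (h : (ZMod p)[X]) [Fact (Irreducible h)], h.Monic →
        h.natDegree = s → ∀ (b : Fin s → ℕ), (∀ l : Fin s, (b l : ZMod p) = h.coeff l) →
        ∀ (a : ε → Fin s → ℕ),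
        (∀ (G : Type) [Group G] (cls : (δ → AdjoinRoot h) → G),
          Presents c (fun x => X (AdjoinRoot h) (Sum.elim x fun i => el h (a i)))
            (fun x y => E (AdjoinRoot h)
              (Sum.elim x (Sum.elim y fun i => el h (a i))))
            (fun x y i => F i (AdjoinRoot h)
              (Sum.elim x (Sum.elim y fun i => el h (a i)))) G cls →
          N p b a = Nat.card G) ∧
        ((¬ ∃ (G : Type) (_ : Group G) (cls : (δ → AdjoinRoot h) → G),
          Presents c (fun x => X (AdjoinRoot h) (Sum.elim x fun i => el h (a i)))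
            (fun x y => E (AdjoinRoot h)
              (Sum.elim x (Sum.elim y fun i => el h (a i))))
            (fun x y i => F i (AdjoinRoot h)
              (Sum.elim x (Sum.elim y fun i => el h (a i)))) G cls) →
          N p b a = 0) := by
  obtain ⟨D, ⟨eδ'⟩⟩ := Finite.exists_equiv_fin (δ × Fin s)
  obtain ⟨e, ⟨eε'⟩⟩ := Finite.exists_equiv_fin ((ε × Fin s) ⊕ Fin s)
  set eδ := eδ'.symm
  set eε := eε'.symm
  obtain ⟨QX, hQX, eX⟩ := prq_ext hX s hs
  obtain ⟨QE, hQE, eE⟩ := prq_ext hE s hs
  choose QF hQF eF' using fun i => prf_ext (hF i) s hs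
  have h1 : PRQ (ι := Fin D ⊕ Fin e) (fun k _ u => QX k fun j => sX eδ eε j k u) :=
    hQX.comp (sX_pr eδ eε)
  have h2 : PRQ (ι := Fin D ⊕ Fin D ⊕ Fin e) (fun k _ u => QE k fun j => sE eδ eε j k u) :=
    hQE.comp (sE_pr eδ eε)
  have h3 : ∀ j, PRF (ι := Fin D ⊕ Fin D ⊕ Fin e)
      (fun k _ u => QF (eδ j).1 (eδ j).2 k fun j => sE eδ eε j k u) :=
    fun j => (hQF (eδ j).1 (eδ j).2).comp (sE_pr eδ eε)
  obtain ⟨N, hN, key, key0⟩ := card_n1 c (d := D) (e := e) h1 h2 (F := fun j k _ u =>
    QF (eδ j).1 (eδ j).2 k fun j => sE eδ eε j k u) h3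
  refine ⟨fun p b a => N (Fin.cons p fun j => un a b (eε j)), ?_, ?_⟩
  · intro n p b a hp hb ha
    refine (hN.comp (h := fun j v => (Fin.cons (p v) (fun j => un (fun i l => a i l v)
      (fun l => b l v) (eε j)) : Fin (e + 1) → ℕ) j) ?_)
    intro j
    refine Fin.cases ?_ (fun j => ?_) j
    · exact hp
    · show DFun n (fun v => un (fun i l => a i l v) (fun l => b l v) (eε j))
      rcases eε j with i | l
      · exact ha i.1 i.2
      · exact hb l
  · intro p hp h hi hm hd b hb a
    have ex : ∀ x : Fin D → ZMod p,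
        (QX (ZMod p) fun j => sX eδ eε j (ZMod p) (Sum.elim x fun i =>
          (((un a b (eε i) : ℕ)) : ZMod p))) ↔
        X (AdjoinRoot h) (Sum.elim (up eδ h x) fun i => el h (a i)) := by
      intro x
      have h4 := eX (ZMod p) h hm hd (fun i => sX eδ eε (Sum.inl i) (ZMod p)
        (Sum.elim x fun i => (((un a b (eε i) : ℕ)) : ZMod p)))
      have h5 : (fun i => PRc.ext h fun l => (fun i => sX eδ eε (Sum.inl i) (ZMod p)
          (Sum.elim x fun i => (((un a b (eε i) : ℕ)) : ZMod p)))
            (i, l)) = Sum.elim (up eδ h x) fun i => el h (a i) := by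
        funext i
        rcases i with i | i
        · rfl
        · show PRc.ext h (fun l => jp eε Sum.inr i l (ZMod p)
            (Sum.elim x fun i => (((un a b (eε i) : ℕ)) : ZMod p))) =
              el h (a i)
          unfold el
          congr 1
          funext l
          unfold jp
          simp [un]
      rw [h5] at h4
      rw [h4]
      refine iff_of_eq (congrArg (QX (ZMod p)) ?_)
      funext j
      rcases j with j | l
      · rfl
      · show (((un a b (eε (eε.symm (Sum.inr l))) : ℕ)) : ZMod p) =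
          h.coeff l
        rw [Equiv.apply_symm_apply]
        exact hb l
    have e5 : ∀ x y : Fin D → ZMod p, (fun i => PRc.ext h fun l =>
        (fun i => sE eδ eε (Sum.inl i) (ZMod p) (Sum.elim x (Sum.elim y fun i =>
          (((un a b (eε i) : ℕ)) : ZMod p)))) (i, l)) =
        Sum.elim (up eδ h x) (Sum.elim (up eδ h y) fun i => el h (a i)) := by
      intro x y
      funext i
      rcases i with i | i | i
      · rfl
      · rfl
      · show PRc.ext h (fun l => jp eε (fun j => Sum.inr (Sum.inr j)) i l (ZMod p)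
          (Sum.elim x (Sum.elim y fun i =>
            (((un a b (eε i) : ℕ)) : ZMod p)))) = el h (a i)
        unfold el
        congr 1
        funext l
        unfold jp
        simp [un]
    have e6 : ∀ x y : Fin D → ZMod p, (Sum.elim (fun i => sE eδ eε (Sum.inl i) (ZMod p)
        (Sum.elim x (Sum.elim y fun i =>
          (((un a b (eε i) : ℕ)) : ZMod p))))
        fun l : Fin s => h.coeff l) = fun j => sE eδ eε j (ZMod p)
          (Sum.elim x (Sum.elim y fun i =>
            (((un a b (eε i) : ℕ)) : ZMod p))) := by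
      intro x y
      funext j
      rcases j with j | l
      · rfl
      · show h.coeff l =
          (((un a b (eε (eε.symm (Sum.inr l))) : ℕ)) : ZMod p)
        rw [Equiv.apply_symm_apply]
        exact (hb l).symm
    have ee : ∀ x y : Fin D → ZMod p,
        (QE (ZMod p) fun j => sE eδ eε j (ZMod p) (Sum.elim x (Sum.elim y fun i =>
          (((un a b (eε i) : ℕ)) : ZMod p)))) ↔
        E (AdjoinRoot h) (Sum.elim (up eδ h x) (Sum.elim (up eδ h y)
          fun i => el h (a i))) := by
      intro x y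
      have h4 := eE (ZMod p) h hm hd (fun i => sE eδ eε (Sum.inl i) (ZMod p)
        (Sum.elim x (Sum.elim y fun i =>
          (((un a b (eε i) : ℕ)) : ZMod p))))
      rw [e5, e6] at h4
      exact h4.symm
    have ef : ∀ x y : Fin D → ZMod p, up eδ h (eF (fun j k _ u =>
        QF (eδ j).1 (eδ j).2 k fun j => sE eδ eε j k u) (ZMod p)
        (fun i => (((un a b (eε i) : ℕ)) : ZMod p)) x y) =
        fun i => F i (AdjoinRoot h) (Sum.elim (up eδ h x) (Sum.elim (up eδ h y)
          fun i => el h (a i))) := by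
      intro x y
      funext i
      have h4 := eF' i (ZMod p) h hm hd (fun i => sE eδ eε (Sum.inl i) (ZMod p)
        (Sum.elim x (Sum.elim y fun i =>
          (((un a b (eε i) : ℕ)) : ZMod p))))
      rw [e5, e6] at h4
      rw [h4]
      unfold up eF
      congr 1
      funext l
      show QF (eδ (eδ.symm (i, l))).1 (eδ (eδ.symm (i, l))).2 (ZMod p) _ = _
      rw [Equiv.apply_symm_apply]
    have hv0 : Fact ((Fin.cons p (fun j => un a b (eε j)) :
        Fin (e + 1) → ℕ) 0).Prime := hp
    have hu := up_surj eδ hm hd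
    constructor
    · intro G _ cls hP
      exact key (Fin.cons p fun j => un a b (eε j)) G _
        (hP.pull hu ex ee ef)
    · intro hn
      refine key0 _ ?_
      rintro ⟨_, G, _, cls, hP⟩
      obtain ⟨cls', h'⟩ := Presents.push (V := δ → AdjoinRoot h)
        (X := fun x => X (AdjoinRoot h) (Sum.elim x fun i => el h (a i)))
        (E := fun x y => E (AdjoinRoot h)
          (Sum.elim x (Sum.elim y fun i => el h (a i))))
        (F := fun x y i => F i (AdjoinRoot h)
          (Sum.elim x (Sum.elim y fun i => el h (a i)))) hP hu ex ee ef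
      exact hn ⟨G, inferInstance, cls', h'⟩

end Pool.Agent.GOr
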