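import Pool.Agent.GOr.Grp
import Pool.Agent.FOG.Def

/-!
# The axioms of a nilpotent group of class at most `c` as a first-order relation
-/

set_option autoImplicit false

noncomputable section

namespace Pool.Agent.GOr

open Polynomial Pool.Agent.PRc Pool.Agent.Grz Pool.Agent.ECD Pool.Agent.Cov Pool.Agent.FOG
open scoped Classical

variable {d e : ℕ}

/-- the axioms -/
def nR (c : ℕ) (E : FR (Fin d ⊕ Fin d ⊕ Fin e)) (F : Fin d → FF (Fin d ⊕ Fin d ⊕ Fin e)) :
    FR (Fin e) := fun k _ a => NRel c (eR E k a) (eF F k a)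

private theorem q1 {E : FR (Fin d ⊕ Fin d ⊕ Fin e)} (hE : PRQ E) :
    PRQ (fun k _ (a : Fin e → k) => ∀ x y, eR E k a x y → eR E k a y x) := by
  have h : PRQ (ι := (Fin e ⊕ Fin d) ⊕ Fin d) (fun k _ u =>
      eR E k (fun i => u (.inl (.inl i))) (fun i => u (.inl (.inr i))) (fun i => u (.inr i)) →
      eR E k (fun i => u (.inl (.inl i))) (fun i => u (.inr i)) (fun i => u (.inl (.inr i)))) :=
    (eR_comp hE (fun _ => PRF.var _) (fun _ => PRF.var _) (fun _ => PRF.var _)).imp
      (eR_comp hE (fun _ => PRF.var _) (fun _ => PRF.var _) (fun _ => PRF.var _))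
  exact h.all.all

private theorem q2 {E : FR (Fin d ⊕ Fin d ⊕ Fin e)} (hE : PRQ E) :
    PRQ (fun k _ (a : Fin e → k) => ∀ x y z, eR E k a x y → eR E k a y z → eR E k a x z) := by
  have h : PRQ (ι := ((Fin e ⊕ Fin d) ⊕ Fin d) ⊕ Fin d) (fun k _ u =>
      eR E k (fun i => u (.inl (.inl (.inl i)))) (fun i => u (.inl (.inl (.inr i))))
        (fun i => u (.inl (.inr i))) →
      eR E k (fun i => u (.inl (.inl (.inl i)))) (fun i => u (.inl (.inr i)))
        (fun i => u (.inr i)) →
      eR E k (fun i => u (.inl (.inl (.inl i)))) (fun i => u (.inl (.inl (.inr i))))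
        (fun i => u (.inr i))) :=
    (eR_comp hE (fun _ => PRF.var _) (fun _ => PRF.var _) (fun _ => PRF.var _)).imp
      ((eR_comp hE (fun _ => PRF.var _) (fun _ => PRF.var _) (fun _ => PRF.var _)).imp
      (eR_comp hE (fun _ => PRF.var _) (fun _ => PRF.var _) (fun _ => PRF.var _)))
  exact h.all.all.all

private theorem q3 {E : FR (Fin d ⊕ Fin d ⊕ Fin e)} {F : Fin d → FF (Fin d ⊕ Fin d ⊕ Fin e)}
    (hE : PRQ E) (hF : ∀ i, PRF (F i)) :
    PRQ (fun k _ (a : Fin e → k) => ∀ x x' y y', eR E k a x x' → eR E k a y y' →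
      eR E k a (eF F k a x y) (eF F k a x' y')) := by
  have h : PRQ (ι := (((Fin e ⊕ Fin d) ⊕ Fin d) ⊕ Fin d) ⊕ Fin d) (fun k _ u =>
      eR E k (fun i => u (.inl (.inl (.inl (.inl i))))) (fun i => u (.inl (.inl (.inl (.inr i)))))
        (fun i => u (.inl (.inl (.inr i)))) →
      eR E k (fun i => u (.inl (.inl (.inl (.inl i))))) (fun i => u (.inl (.inr i)))
        (fun i => u (.inr i)) →
      eR E k (fun i => u (.inl (.inl (.inl (.inl i)))))
        (fun j => eF F k (fun i => u (.inl (.inl (.inl (.inl i)))))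
          (fun i => u (.inl (.inl (.inl (.inr i))))) (fun i => u (.inl (.inr i))) j)
        (fun j => eF F k (fun i => u (.inl (.inl (.inl (.inl i)))))
          (fun i => u (.inl (.inl (.inr i)))) (fun i => u (.inr i)) j)) :=
    (eR_comp hE (fun _ => PRF.var _) (fun _ => PRF.var _) (fun _ => PRF.var _)).imp
      ((eR_comp hE (fun _ => PRF.var _) (fun _ => PRF.var _) (fun _ => PRF.var _)).imp
      (eR_comp hE
        (eF_comp hF (fun _ => PRF.var _) (fun _ => PRF.var _) (fun _ => PRF.var _))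
        (eF_comp hF (fun _ => PRF.var _) (fun _ => PRF.var _) (fun _ => PRF.var _))
        (fun _ => PRF.var _)))
  exact h.all.all.all.all

private theorem q4 {E : FR (Fin d ⊕ Fin d ⊕ Fin e)} {F : Fin d → FF (Fin d ⊕ Fin d ⊕ Fin e)}
    (hE : PRQ E) (hF : ∀ i, PRF (F i)) :
    PRQ (fun k _ (a : Fin e → k) => ∀ x y z, eR E k a x x → eR E k a y y → eR E k a z z →
      eR E k a (eF F k a (eF F k a x y) z) (eF F k a x (eF F k a y z))) := by
  have h : PRQ (ι := ((Fin e ⊕ Fin d) ⊕ Fin d) ⊕ Fin d) (fun k _ u =>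
      eR E k (fun i => u (.inl (.inl (.inl i)))) (fun i => u (.inl (.inl (.inr i))))
        (fun i => u (.inl (.inl (.inr i)))) →
      eR E k (fun i => u (.inl (.inl (.inl i)))) (fun i => u (.inl (.inr i)))
        (fun i => u (.inl (.inr i))) →
      eR E k (fun i => u (.inl (.inl (.inl i)))) (fun i => u (.inr i)) (fun i => u (.inr i)) →
      eR E k (fun i => u (.inl (.inl (.inl i))))
        (fun j => eF F k (fun i => u (.inl (.inl (.inl i))))
          (fun l => eF F k (fun i => u (.inl (.inl (.inl i)))) (fun i => u (.inl (.inl (.inr i))))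
            (fun i => u (.inl (.inr i))) l) (fun i => u (.inr i)) j)
        (fun j => eF F k (fun i => u (.inl (.inl (.inl i)))) (fun i => u (.inl (.inl (.inr i))))
          (fun l => eF F k (fun i => u (.inl (.inl (.inl i)))) (fun i => u (.inl (.inr i)))
            (fun i => u (.inr i)) l) j)) :=
    (eR_comp hE (fun _ => PRF.var _) (fun _ => PRF.var _) (fun _ => PRF.var _)).imp
      ((eR_comp hE (fun _ => PRF.var _) (fun _ => PRF.var _) (fun _ => PRF.var _)).imp
      ((eR_comp hE (fun _ => PRF.var _) (fun _ => PRF.var _) (fun _ => PRF.var _)).imp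
      (eR_comp hE
        (eF_comp hF (eF_comp hF (fun _ => PRF.var _) (fun _ => PRF.var _) (fun _ => PRF.var _))
          (fun _ => PRF.var _) (fun _ => PRF.var _))
        (eF_comp hF (fun _ => PRF.var _)
          (eF_comp hF (fun _ => PRF.var _) (fun _ => PRF.var _) (fun _ => PRF.var _))
          (fun _ => PRF.var _))
        (fun _ => PRF.var _))))
  exact h.all.all.all

private theorem zr_prq {E : FR (Fin d ⊕ Fin d ⊕ Fin e)} {F : Fin d → FF (Fin d ⊕ Fin d ⊕ Fin e)}
    (hE : PRQ E) (hF : ∀ i, PRF (F i)) (c : ℕ) : PRQ (ι := Fin e ⊕ Fin d) (fun k _ u =>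
      ZR (eR E k fun i => u (.inl i)) (eF F k fun i => u (.inl i)) c fun i => u (.inr i)) := by
  induction c with
  | zero =>
    exact eR_comp hE
      (eF_comp hF (fun _ => PRF.var _) (fun _ => PRF.var _) (fun _ => PRF.var _))
      (fun _ => PRF.var _) (fun _ => PRF.var _)
  | succ c ih =>
    have h0 : PRQ (ι := ((Fin e ⊕ Fin d) ⊕ Fin d) ⊕ Fin d) (fun k _ u =>
        ZR (eR E k fun i => u (.inl (.inl (.inl i)))) (eF F k fun i => u (.inl (.inl (.inl i)))) c
          fun i => u (.inr i)) := by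
      refine (ih.comp (G := Sum.elim (fun i k _ u => u (.inl (.inl (.inl i))))
        (fun i k _ u => u (.inr i))) ?_).congr fun k _ u => Iff.rfl
      rintro (i | i) <;> exact PRF.var _
    have h : PRQ (ι := ((Fin e ⊕ Fin d) ⊕ Fin d) ⊕ Fin d) (fun k _ u =>
        eR E k (fun i => u (.inl (.inl (.inl i)))) (fun i => u (.inl (.inr i)))
          (fun i => u (.inl (.inr i))) →
        eR E k (fun i => u (.inl (.inl (.inl i)))) (fun i => u (.inr i)) (fun i => u (.inr i)) →
        eR E k (fun i => u (.inl (.inl (.inl i))))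
          (fun j => eF F k (fun i => u (.inl (.inl (.inl i)))) (fun i => u (.inr i))
            (fun l => eF F k (fun i => u (.inl (.inl (.inl i)))) (fun i => u (.inl (.inr i)))
              (fun i => u (.inl (.inl (.inr i)))) l) j)
          (fun j => eF F k (fun i => u (.inl (.inl (.inl i)))) (fun i => u (.inl (.inl (.inr i))))
            (fun i => u (.inl (.inr i))) j) →
        ZR (eR E k fun i => u (.inl (.inl (.inl i)))) (eF F k fun i => u (.inl (.inl (.inl i)))) c
          fun i => u (.inr i)) :=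
      (eR_comp hE (fun _ => PRF.var _) (fun _ => PRF.var _) (fun _ => PRF.var _)).imp
        ((eR_comp hE (fun _ => PRF.var _) (fun _ => PRF.var _) (fun _ => PRF.var _)).imp
        ((eR_comp hE
          (eF_comp hF (fun _ => PRF.var _)
            (eF_comp hF (fun _ => PRF.var _) (fun _ => PRF.var _) (fun _ => PRF.var _))
            (fun _ => PRF.var _))
          (eF_comp hF (fun _ => PRF.var _) (fun _ => PRF.var _) (fun _ => PRF.var _))
          (fun _ => PRF.var _)).imp h0))
    exact h.all.all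

private theorem q5 {E : FR (Fin d ⊕ Fin d ⊕ Fin e)} {F : Fin d → FF (Fin d ⊕ Fin d ⊕ Fin e)}
    (hE : PRQ E) (hF : ∀ i, PRF (F i)) (c : ℕ) : PRQ (fun k _ (a : Fin e → k) =>
      ∀ x, eR E k a x x → ZR (eR E k a) (eF F k a) c x) := by
  have h : PRQ (ι := Fin e ⊕ Fin d) (fun k _ u =>
      eR E k (fun i => u (.inl i)) (fun i => u (.inr i)) (fun i => u (.inr i)) →
      ZR (eR E k fun i => u (.inl i)) (eF F k fun i => u (.inl i)) c fun i => u (.inr i)) :=
    (eR_comp hE (fun _ => PRF.var _) (fun _ => PRF.var _) (fun _ => PRF.var _)).imp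
      (zr_prq hE hF c)
  exact h.all

private theorem q6 {E : FR (Fin d ⊕ Fin d ⊕ Fin e)} {F : Fin d → FF (Fin d ⊕ Fin d ⊕ Fin e)}
    (hE : PRQ E) (hF : ∀ i, PRF (F i)) :
    PRQ (fun k _ (a : Fin e → k) => ∃ o, eR E k a o o ∧ ∀ x, eR E k a x x →
      eR E k a (eF F k a o x) x ∧ ∃ y, eR E k a y y ∧ eR E k a (eF F k a y x) o) := by
  have h1 : PRQ (ι := ((Fin e ⊕ Fin d) ⊕ Fin d) ⊕ Fin d) (fun k _ u =>
      eR E k (fun i => u (.inl (.inl (.inl i)))) (fun i => u (.inr i)) (fun i => u (.inr i)) ∧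
      eR E k (fun i => u (.inl (.inl (.inl i))))
        (fun j => eF F k (fun i => u (.inl (.inl (.inl i)))) (fun i => u (.inr i))
          (fun i => u (.inl (.inr i))) j)
        (fun i => u (.inl (.inl (.inr i))))) :=
    (eR_comp hE (fun _ => PRF.var _) (fun _ => PRF.var _) (fun _ => PRF.var _)).and
      (eR_comp hE
        (eF_comp hF (fun _ => PRF.var _) (fun _ => PRF.var _) (fun _ => PRF.var _))
        (fun _ => PRF.var _) (fun _ => PRF.var _))
  have h2 : PRQ (ι := (Fin e ⊕ Fin d) ⊕ Fin d) (fun k _ u =>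
      eR E k (fun i => u (.inl (.inl i))) (fun i => u (.inr i)) (fun i => u (.inr i)) →
      eR E k (fun i => u (.inl (.inl i)))
        (fun j => eF F k (fun i => u (.inl (.inl i))) (fun i => u (.inl (.inr i)))
          (fun i => u (.inr i)) j)
        (fun i => u (.inr i)) ∧ ∃ y : Fin d → k,
        eR E k (fun i => u (.inl (.inl i))) y y ∧
        eR E k (fun i => u (.inl (.inl i)))
          (eF F k (fun i => u (.inl (.inl i))) y (fun i => u (.inr i)))
          (fun i => u (.inl (.inr i)))) := by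
    refine (eR_comp hE (fun _ => PRF.var _) (fun _ => PRF.var _) (fun _ => PRF.var _)).imp
      ((eR_comp hE
        (eF_comp hF (fun _ => PRF.var _) (fun _ => PRF.var _) (fun _ => PRF.var _))
        (fun _ => PRF.var _) (fun _ => PRF.var _)).and ?_)
    exact h1.ex
  have h3 : PRQ (ι := Fin e ⊕ Fin d) (fun k _ u =>
      eR E k (fun i => u (.inl i)) (fun i => u (.inr i)) (fun i => u (.inr i)) ∧
      ∀ x : Fin d → k, eR E k (fun i => u (.inl i)) x x →
      eR E k (fun i => u (.inl i))
        (eF F k (fun i => u (.inl i)) (fun i => u (.inr i)) x) x ∧ ∃ y : Fin d → k,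
        eR E k (fun i => u (.inl i)) y y ∧
        eR E k (fun i => u (.inl i))
          (eF F k (fun i => u (.inl i)) y x) (fun i => u (.inr i))) :=
    (eR_comp hE (fun _ => PRF.var _) (fun _ => PRF.var _) (fun _ => PRF.var _)).and h2.all
  exact h3.ex

/-- **The axioms are first-order.** -/
theorem prq_nR (c : ℕ) {E : FR (Fin d ⊕ Fin d ⊕ Fin e)}
    {F : Fin d → FF (Fin d ⊕ Fin d ⊕ Fin e)} (hE : PRQ E) (hF : ∀ i, PRF (F i)) :
    PRQ (nR c E F) := by
  refine ((q1 hE).and ((q2 hE).and ((q3 hE hF).and ((q4 hE hF).and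
    ((q6 hE hF).and (q5 hE hF c)))))).congr fun k _ a => ?_
  constructor
  · rintro ⟨h1, h2, h3, h4, h5, h6⟩
    exact ⟨h1, h2, h3, h4, h5, h6⟩
  · intro h
    exact ⟨h.symm, h.trans, h.compat, h.assoc, h.unit, h.nil⟩

end Pool.Agent.GOr
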