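import Pool.Agent.GOr.Top

/-!
# Projective commutative groups with addition laws

The format is the one of Pila's theorem on abelian varieties: the numbers of coordinates, of
equations and of addition laws, and the degrees are fixed, all coefficients are arbitrary elements
of the field.
-/

set_option autoImplicit false

noncomputable section

namespace Pool.Agent.GOr

open Polynomial Pool.Agent.PRc Pool.Agent.Grz Pool.Agent.ECD Pool.Agent.Cov Pool.Agent.FOG
open scoped Classical

/-- the value at `z` of the polynomial with the coefficients `c`, exponents at most `e` -/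
def pval {ι : Type} [Fintype ι] {e : ℕ} {K : Type} [Field K] (c : (ι → Fin (e + 1)) → K)
    (z : ι → K) : K := ∑ u, c u * ∏ i, z i ^ (u i : ℕ)

/-- `x` is a vector of homogeneous coordinates of a zero of the forms `P` -/
def IsPt {w r e : ℕ} {K : Type} [Field K] (P : Fin r → (Fin (w + 1) → Fin (e + 1)) → K)
    (x : Fin (w + 1) → K) : Prop := (∃ i, x i ≠ 0) ∧ ∀ l, pval (P l) x = 0

/-- the vector of the values of an addition law -/
def aval {w e : ℕ} {K : Type} [Field K]
    (Q : Fin (w + 1) → (Fin (w + 1) ⊕ Fin (w + 1) → Fin (e + 1)) → K)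
    (x y : Fin (w + 1) → K) : Fin (w + 1) → K := fun i => pval (Q i) (Sum.elim x y)

/-- The commutative group `G` is the set of the points over `K` of the projective variety with the
equations `P`; for any two points at least one of the addition laws `Q` is not zero, and every
addition law that is not zero gives the sum. -/
structure ProjGroup {w r J e : ℕ} (K : Type) [Field K]
    (P : Fin r → (Fin (w + 1) → Fin (e + 1)) → K)
    (Q : Fin J → Fin (w + 1) → (Fin (w + 1) ⊕ Fin (w + 1) → Fin (e + 1)) → K) (G : Type)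
    [CommGroup G] (cls : (Fin (w + 1) → K) → G) : Prop where
  onto : ∀ g, ∃ x, IsPt P x ∧ cls x = g
  eq : ∀ x y, IsPt P x → IsPt P y → (cls x = cls y ↔ ∃ z : K, ∀ i, y i = z * x i)
  ex : ∀ x y, IsPt P x → IsPt P y → ∃ j i, aval (Q j) x y i ≠ 0
  law : ∀ x y, IsPt P x → IsPt P y → ∀ j, (∃ i, aval (Q j) x y i ≠ 0) →
    IsPt P (aval (Q j) x y) ∧ cls (aval (Q j) x y) = cls x * cls y

/-- the first family that is not zero -/
private def sel {ι α : Type} : (n : ℕ) → (Fin n → α → FF ι) → α → FF ι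
  | 0, _ => fun _ _ _ _ => 0
  | n + 1, A => fun i k _ u =>
    if ∀ i, A 0 i k u = 0 then sel n (fun j => A j.succ) i k u else A 0 i k u

private theorem sel_pr {ι α : Type} [Finite α] : ∀ (n : ℕ) (A : Fin n → α → FF ι),
    (∀ j i, PRF (A j i)) → ∀ i, PRF (sel n A i)
  | 0, _, _, _ => PRF.zero
  | n + 1, A, h, i => by
    have := Fintype.ofFinite α
    have h1 : PRD (ι := ι) (fun k _ u => ∀ i ∈ Finset.univ, A 0 i k u = 0) :=
      PRD.all Finset.univ (P := fun i k _ u => A 0 i k u = 0) fun i _ =>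
        PRD.eq (h 0 i) PRF.zero
    have h2 : PRD (ι := ι) (fun k _ u => ∀ i, A 0 i k u = 0) :=
      h1.congr fun k _ u => by simp
    exact PRF.iteD h2 (sel_pr n (fun j => A j.succ) (fun j i => h j.succ i) i) (h 0 i)

private theorem sel_spec {ι α : Type} (k : Type) [Field k] (u : ι → k) :
    ∀ (n : ℕ) (A : Fin n → α → FF ι), (∃ j i, A j i k u ≠ 0) →
    ∃ j, (∃ i, A j i k u ≠ 0) ∧ ∀ i, sel n A i k u = A j i k u
  | 0, _, ⟨j, _⟩ => j.elim0
  | n + 1, A, ⟨j, i, h⟩ => by
    by_cases h0 : ∀ i, A 0 i k u = 0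
    · have h1 : ∃ j i, A (Fin.succ j) i k u ≠ 0 := by
        refine Fin.cases (fun h => ?_) (fun j h => ⟨j, i, h⟩) j h
        exact absurd (h0 i) h
      obtain ⟨j, h2, h3⟩ := sel_spec k u n (fun j => A j.succ) h1
      refine ⟨j.succ, h2, fun i => ?_⟩
      rw [← h3 i]
      show (if ∀ i, A 0 i k u = 0 then sel n (fun j => A j.succ) i k u else A 0 i k u) = _
      rw [if_pos h0]
    · refine ⟨0, ?_, fun i => ?_⟩
      · push Not at h0
        exact h0
      · show (if ∀ i, A 0 i k u = 0 then sel n (fun j => A j.succ) i k u else A 0 i k u) = _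
        rw [if_neg h0]

section

variable {w r J e : ℕ}

/-- the coefficients -/
private abbrev Co (w r J e : ℕ) : Type := (Fin r × (Fin (w + 1) → Fin (e + 1))) ⊕
  (Fin J × Fin (w + 1) × (Fin (w + 1) ⊕ Fin (w + 1) → Fin (e + 1)))

/-- all coefficients in one family -/
private def co {α : Type} (P : Fin r → (Fin (w + 1) → Fin (e + 1)) → α)
    (Q : Fin J → Fin (w + 1) → (Fin (w + 1) ⊕ Fin (w + 1) → Fin (e + 1)) → α) :
    Co w r J e → α
  | .inl i => P i.1 i.2
  | .inr i => Q i.1 i.2.1 i.2.2

private def XP {ι : Type} (x : Fin (w + 1) → ι) (a : Co w r J e → ι) : FR ι := fun _ _ u =>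
  IsPt (r := r) (fun l v => u (a (.inl (l, v)))) fun i => u (x i)

private theorem pval_pr {ι κ : Type} [Fintype κ] {c : (κ → Fin (e + 1)) → FF ι}
    {z : κ → FF ι} (hc : ∀ v, PRF (c v)) (hz : ∀ i, PRF (z i)) :
    PRF (fun K _ u => pval (fun v => c v K u) fun i => z i K u) := by
  unfold pval
  refine PRF.sum Finset.univ (F := fun (v : κ → Fin (e + 1)) (K : Type) [Field K] (u : ι → K) =>
    c v K u * ∏ i, z i K u ^ (v i : ℕ)) fun v _ => PRF.mul (hc v) ?_
  exact PRF.prod Finset.univ (F := fun (i : κ) (K : Type) [Field K] (u : ι → K) =>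
    z i K u ^ (v i : ℕ)) fun i _ => (hz i).pow _

private theorem XP_pr {ι : Type} (x : Fin (w + 1) → ι) (a : Co w r J e → ι) : PRQ (XP x a) := by
  refine (PRQ.exF (P := fun (i : Fin (w + 1)) (K : Type) [Field K] (u : ι → K) => u (x i) ≠ 0)
    fun i => (PRQ.eq (PRF.var (x i)) PRF.zero).not).and ?_
  refine PRQ.allF (P := fun (l : Fin r) (K : Type) [Field K] (u : ι → K) =>
    pval (fun v => u (a (.inl (l, v)))) (fun i => u (x i)) = 0) fun l => ?_
  exact PRQ.eq (pval_pr (fun v => PRF.var (a (Sum.inl (l, v)))) fun i => PRF.var (x i)) PRF.zero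

private def EP {ι : Type} (x y : Fin (w + 1) → ι) : FR ι := fun K _ u =>
  ∃ z : K, ∀ i, u (y i) = z * u (x i)

private theorem EP_pr {ι : Type} (x y : Fin (w + 1) → ι) : PRQ (EP x y) := by
  have h1 : PRQ (ι := ι ⊕ Unit) (fun K _ u => ∀ i : Fin (w + 1),
      u (.inl (y i)) = u (.inr ()) * u (.inl (x i))) := PRQ.allF
    (P := fun (i : Fin (w + 1)) (K : Type) [Field K] (u : ι ⊕ Unit → K) =>
      u (.inl (y i)) = u (.inr ()) * u (.inl (x i))) fun i =>
      PRQ.eq (PRF.var (Sum.inl (y i))) ((PRF.var (Sum.inr ())).mul (PRF.var (Sum.inl (x i))))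
  refine h1.ex.congr fun K _ u => ?_
  constructor
  · rintro ⟨z, hz⟩
    exact ⟨z (), hz⟩
  · rintro ⟨z, hz⟩
    exact ⟨fun _ => z, hz⟩

/-- the laws -/
private def AP (j : Fin J) (i : Fin (w + 1)) :
    FF (Fin (w + 1) ⊕ Fin (w + 1) ⊕ Co w r J e) := fun _ _ u =>
  aval (fun i v => u (.inr (.inr (.inr (j, i, v))))) (fun i => u (.inl i))
    (fun i => u (.inr (.inl i))) i

private theorem AP_pr (j : Fin J) (i : Fin (w + 1)) : PRF (AP (r := r) (e := e) j i) := by
  refine pval_pr (c := fun v K _ u => u (.inr (.inr (.inr (j, i, v)))))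
    (z := Sum.elim (fun i K _ u => u (.inl i)) fun i K _ u => u (.inr (.inl i)))
    (fun v => PRF.var (Sum.inr (Sum.inr (Sum.inr (j, i, v))))) (fun i => ?_) |>.congr fun K _ u => ?_
  · rcases i with i | i
    · exact PRF.var (Sum.inl i)
    · exact PRF.var (Sum.inr (Sum.inl i))
  · show pval _ _ = pval _ _
    congr 1
    funext i
    rcases i with i | i <;> rfl

private theorem pres {K : Type} [Field K] {P : Fin r → (Fin (w + 1) → Fin (e + 1)) → K}
    {Q : Fin J → Fin (w + 1) → (Fin (w + 1) ⊕ Fin (w + 1) → Fin (e + 1)) → K} {G : Type}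
    [CommGroup G] {cls : (Fin (w + 1) → K) → G} (h : ProjGroup K P Q G cls) :
    Pr 1 (δ := Fin (w + 1)) (ε := Co w r J e) (XP Sum.inl Sum.inr)
      (EP (ι := Fin (w + 1) ⊕ Fin (w + 1) ⊕ Co w r J e) Sum.inl fun i => Sum.inr (Sum.inl i))
      (sel J AP) K (co P Q) G cls where
  nil := by
    rw [Subgroup.upperCentralSeries_one]
    exact CommGroup.center_eq_top
  onto := h.onto
  law x y hx hy := by
    have h1 := sel_spec K (Sum.elim x (Sum.elim y (co P Q))) J (AP (w := w) (r := r) (e := e))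
      (h.ex x y hx hy)
    obtain ⟨j, h2, h3⟩ := h1
    have h4 := h.law x y hx hy j h2
    have h5 : (fun i => sel J (AP (w := w) (r := r) (e := e)) i K (Sum.elim x (Sum.elim y
        (co P Q)))) = aval (Q j) x y := funext h3
    rw [h5]
    exact h4
  eq x y hx hy := (h.eq x y hx hy).symm

end

/-- **The number of the points of abelian varieties in Pila's format**: the function `N` of the
prime, of the coefficients `b` of the minimal polynomial of a generator of the field and of the
coordinates of the coefficients `P`, `Q` of the equations and of the addition laws. -/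
theorem ex_proj (s w r J e : ℕ) :
    ∃ N : ℕ → (Fin s → ℕ) → (Fin r → (Fin (w + 1) → Fin (e + 1)) → Fin s → ℕ) →
        (Fin J → Fin (w + 1) → (Fin (w + 1) ⊕ Fin (w + 1) → Fin (e + 1)) → Fin s → ℕ) → ℕ,
      (∀ (n : ℕ) (m : (Fin n → ℕ) → ℕ) (b : Fin s → (Fin n → ℕ) → ℕ)
        (P : Fin r → (Fin (w + 1) → Fin (e + 1)) → Fin s → (Fin n → ℕ) → ℕ)
        (Q : Fin J → Fin (w + 1) → (Fin (w + 1) ⊕ Fin (w + 1) → Fin (e + 1)) → Fin s →
          (Fin n → ℕ) → ℕ), DFun n m → (∀ l, DFun n (b l)) → (∀ i u l, DFun n (P i u l)) →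
        (∀ j i u l, DFun n (Q j i u l)) →
        DFun n (fun v => N (m v) (fun l => b l v) (fun i u l => P i u l v)
          fun j i u l => Q j i u l v) ∧
        DFun n (fun v => ∏ p ∈ (m v).primeFactors, N p (fun l => b l v)
          (fun i u l => P i u l v) fun j i u l => Q j i u l v)) ∧
      ∀ (p : ℕ) (b : Fin s → ℕ) (K : Type) [Field K] (t : K), IsField p s b K t →
        ∀ (P : Fin r → (Fin (w + 1) → Fin (e + 1)) → Fin s → ℕ)
          (Q : Fin J → Fin (w + 1) → (Fin (w + 1) ⊕ Fin (w + 1) → Fin (e + 1)) → Fin s → ℕ)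
          (G : Type) [CommGroup G] (cls : (Fin (w + 1) → K) → G),
          ProjGroup K (fun i u => elt t (P i u)) (fun j i u => elt t (Q j i u)) G cls →
          N p b P Q = Nat.card G := by
  obtain ⟨N, h1, h2, -⟩ := top_pr 1 s (δ := Fin (w + 1)) (ε := Co w r J e)
    (XP_pr (J := J) (r := r) (e := e) Sum.inl Sum.inr)
    (EP_pr (ι := Fin (w + 1) ⊕ Fin (w + 1) ⊕ Co w r J e) Sum.inl fun i => Sum.inr (Sum.inl i))
    (F := sel J AP) (sel_pr J AP AP_pr)
  refine ⟨fun p b P Q => N p b (fun i l => co (fun i u => P i u l) (fun j i u => Q j i u l) i),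
    ?_, ?_⟩
  · intro n m b P Q hm hb hP hQ
    have h3 := h1 n m b (fun i l v => co (fun i u => P i u l v) (fun j i u => Q j i u l v) i)
      hm hb (by
      rintro (i | i) l
      · exact hP _ _ _
      · exact hQ _ _ _ _)
    exact h3
  · intro p b K _ t ht P Q G _ cls hG
    have h3 := pres hG
    have e2 : co (fun i u => elt t (P i u)) (fun j i u => elt t (Q j i u)) = fun i =>
        elt t fun l => co (fun i u => P i u l) (fun j i u => Q j i u l) i := by
      funext i
      rcases i with i | i <;> rfl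
    rw [e2] at h3
    exact h2 p b K t ht _ G cls h3

end Pool.Agent.GOr
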