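import Pool.Agent.GOr.Card

/-!
# A finite field with a generator
-/

set_option autoImplicit false

noncomputable section

namespace Pool.Agent.GOr

open Polynomial Pool.Agent.PRc

/-- the polynomial `X ^ s + ∑ b_l X ^ l` -/
def hp (p s : ℕ) (b : Fin s → ℕ) : (ZMod p)[X] := X ^ s + ∑ l : Fin s, C ((b l : ℕ) : ZMod p) *
  X ^ (l : ℕ)

section

variable {p s : ℕ} {b : Fin s → ℕ}

theorem hp_monic : (hp p s b).Monic := monic_X_pow_add (degree_sum_fin_lt _)

theorem hp_deg [Fact p.Prime] : (hp p s b).natDegree = s := by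
  unfold hp
  rw [natDegree_add_eq_left_of_degree_lt, natDegree_X_pow]
  rw [degree_X_pow]
  exact degree_sum_fin_lt _

theorem hp_coeff (l : Fin s) : ((b l : ℕ) : ZMod p) = (hp p s b).coeff l := by
  unfold hp
  rw [coeff_add, coeff_X_pow, if_neg l.2.ne, zero_add, finsetSum_coeff, Finset.sum_eq_single l]
  · rw [coeff_C_mul, coeff_X_pow, if_pos rfl, mul_one]
  · intro b _ hb
    rw [coeff_C_mul, coeff_X_pow, if_neg fun h => hb (Fin.ext h.symm), mul_zero]
  · intro h
    exact absurd (Finset.mem_univ l) h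

end

section

variable {p s : ℕ} {b : Fin s → ℕ} {K : Type} [Field K] {t : K}

theorem IsField.pos (h : IsField p s b K t) : 0 < s := by
  rcases Nat.eq_zero_or_pos s with rfl | h0
  · have h1 := h.card
    rw [pow_zero] at h1
    have : Finite K := (Nat.card_pos_iff.1 (by rw [h1]; exact one_pos)).2
    exact absurd h1 Finite.one_lt_card.ne'
  · exact h0

theorem IsField.finite (h : IsField p s b K t) : Finite K := by
  have h1 : 0 < Nat.card K := by
    rw [h.card]
    exact Nat.pow_pos h.prime.pos
  exact (Nat.card_pos_iff.1 h1).2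

theorem IsField.charP (h : IsField p s b K t) : CharP K p := by
  have := h.finite
  have := Fintype.ofFinite K
  obtain ⟨r, hr⟩ := CharP.exists K
  have hr' : r.Prime := CharP.char_is_prime K r
  obtain ⟨n, hn, e⟩ := FiniteField.card K r
  rw [← Nat.card_eq_fintype_card, h.card] at e
  have h2 : p = r := by
    have h3 : p ∣ r ^ (n : ℕ) := by
      rw [← e]
      exact dvd_pow_self p h.pos.ne'
    exact (Nat.prime_dvd_prime_iff_eq h.prime hr').1 (h.prime.dvd_of_dvd_pow h3)
  rw [h2]
  exact hr

/-- the field is the residue ring -/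
theorem IsField.iso (h : IsField p s b K t) : haveI := Fact.mk h.prime;
    ∃ _ : Fact (Irreducible (hp p s b)), ∃ f : AdjoinRoot (hp p s b) ≃+* K,
      ∀ a : Fin s → ℕ, f (el (hp p s b) a) = elt t a := by
  have := h.finite
  have := h.charP
  haveI := Fact.mk h.prime
  have hr : (hp p s b).eval₂ (ZMod.castHom (dvd_refl p) K) t = 0 := by
    unfold hp
    rw [eval₂_add, eval₂_X_pow, eval₂_finsetSum]
    have h2 := h.root
    unfold elt at h2
    rw [← h2]
    congr 1
    refine Finset.sum_congr rfl fun l _ => ?_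
    rw [eval₂_mul, eval₂_C, eval₂_X_pow, map_natCast]
  let g : AdjoinRoot (hp p s b) →+* K := AdjoinRoot.lift (ZMod.castHom (dvd_refl p) K) t hr
  have hg : ∀ a : Fin s → ℕ, g (el (hp p s b) a) = elt t a := by
    intro a
    show AdjoinRoot.lift (ZMod.castHom (dvd_refl p) K) t hr (AdjoinRoot.mk _ _) = _
    rw [AdjoinRoot.lift_mk, eval₂_finsetSum]
    unfold elt
    refine Finset.sum_congr rfl fun l _ => ?_
    rw [eval₂_mul, eval₂_C, eval₂_X_pow, map_natCast]
  have hs : Function.Surjective g := fun x => by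
    obtain ⟨a, ha⟩ := h.span x
    exact ⟨_, (hg a).trans ha⟩
  have hsx : Function.Surjective (PRc.ext (s := s) (hp p s b)) := fun y =>
    ext_surj hp_monic hp_deg y
  have hc : Nat.card (AdjoinRoot (hp p s b)) ≤ p ^ s := by
    have h2 := Nat.card_le_card_of_surjective _ hsx
    refine h2.trans (le_of_eq ?_)
    rw [Nat.card_fun, Nat.card_zmod, Nat.card_eq_fintype_card, Fintype.card_fin]
  have hfin : Finite (AdjoinRoot (hp p s b)) := Finite.of_surjective _ hsx
  have hbij : Function.Bijective g := by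
    refine ((Nat.bijective_iff_surjective_and_card g).2 ⟨hs, ?_⟩)
    refine le_antisymm ?_ (Nat.card_le_card_of_surjective g hs)
    rw [h.card]
    exact hc
  let f : AdjoinRoot (hp p s b) ≃+* K := RingEquiv.ofBijective g hbij
  have hdom : IsDomain (AdjoinRoot (hp p s b)) := f.toMulEquiv.isDomain K
  have hirr : Irreducible (hp p s b) := by
    have h1 : (Ideal.span {hp p s b}).IsPrime :=
      (Ideal.Quotient.isDomain_iff_prime _).1 hdom
    exact ((Ideal.span_singleton_prime hp_monic.ne_zero).1 h1).irreducible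
  exact ⟨⟨hirr⟩, f, hg⟩

theorem elt_el [Fact p.Prime] [Fact (Irreducible (hp p s b))] (a : Fin s → ℕ) :
    elt (AdjoinRoot.root (hp p s b)) a = el (hp p s b) a := by
  unfold elt el PRc.ext
  rw [map_sum]
  refine Finset.sum_congr rfl fun l _ => ?_
  rw [map_mul, map_pow, AdjoinRoot.mk_X, AdjoinRoot.mk_C, map_natCast]

/-- the residue ring as a field -/
theorem isField_root [Fact p.Prime] [Fact (Irreducible (hp p s b))] :
    IsField p s b (AdjoinRoot (hp p s b)) (AdjoinRoot.root (hp p s b)) where
  prime := Fact.out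
  card := by
    have h1 : Function.Bijective (PRc.ext (s := s) (hp p s b)) :=
      ⟨fun _ _ h => ext_inj hp_monic hp_deg h, fun y => ext_surj hp_monic hp_deg y⟩
    rw [← Nat.card_congr (Equiv.ofBijective _ h1), Nat.card_fun, Nat.card_zmod,
      Nat.card_eq_fintype_card, Fintype.card_fin]
  root := by
    have h1 : AdjoinRoot.mk (hp p s b) (X ^ s + ∑ l : Fin s, C ((b l : ℕ) : ZMod p) *
      X ^ (l : ℕ)) = 0 := AdjoinRoot.mk_self
    rw [map_add, map_pow, AdjoinRoot.mk_X] at h1
    rw [elt_el]
    exact h1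
  span x := by
    obtain ⟨z, hz⟩ := ext_surj (s := s) hp_monic hp_deg x
    refine ⟨fun l => (z l).val, ?_⟩
    rw [elt_el, ← hz]
    unfold el
    simp only [ZMod.natCast_zmod_val]

end

end Pool.Agent.GOr
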