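import Mathlib

/-!
# Nilpotent groups given by a partial equivalence relation and an operation

`NRel c E F`: `E` is a partial equivalence relation and `F` induces on the classes the law of a
nilpotent group of class at most `c`. `ZR E F i x`: the class of `x` is in the `i`-th term of the
upper central series.
-/

set_option autoImplicit false

namespace Pool.Agent.GOr

/-- the terms of the upper central series, for representatives -/
def ZR {V : Type} (E : V → V → Prop) (F : V → V → V) : ℕ → V → Prop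
  | 0, x => E (F x x) x
  | i + 1, x => ∀ y z, E y y → E z z → E (F z (F y x)) (F x y) → ZR E F i z

/-- `E` is a partial equivalence relation, `F` induces the law of a nilpotent group of class at
most `c`. -/
structure NRel {V : Type} (c : ℕ) (E : V → V → Prop) (F : V → V → V) : Prop where
  symm : ∀ x y, E x y → E y x
  trans : ∀ x y z, E x y → E y z → E x z
  compat : ∀ x x' y y', E x x' → E y y' → E (F x y) (F x' y')
  assoc : ∀ x y z, E x x → E y y → E z z → E (F (F x y) z) (F x (F y z))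
  unit : ∃ e, E e e ∧ ∀ x, E x x → E (F e x) x ∧ ∃ y, E y y ∧ E (F y x) e
  nil : ∀ x, E x x → ZR E F c x

variable {V : Type} {c : ℕ} {E : V → V → Prop} {F : V → V → V}

theorem NRel.left (h : NRel c E F) {x y : V} (e : E x y) : E x x :=
  h.trans _ _ _ e (h.symm _ _ e)

/-- the equivalence relation on the domain -/
def NRel.setoid (h : NRel c E F) : Setoid {x : V // E x x} where
  r x y := E x y
  iseqv := ⟨fun x => x.2, fun e => h.symm _ _ e, fun e f => h.trans _ _ _ e f⟩

/-- the group -/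
def NRel.Q (h : NRel c E F) : Type := Quotient h.setoid

theorem NRel.mem (h : NRel c E F) {x y : V} (hx : E x x) (hy : E y y) : E (F x y) (F x y) :=
  h.compat _ _ _ _ hx hy

/-- the class of an element of the domain -/
def NRel.cl (h : NRel c E F) (x : V) (hx : E x x) : h.Q := Quotient.mk h.setoid ⟨x, hx⟩

theorem NRel.cl_eq (h : NRel c E F) {x y : V} (hx : E x x) (hy : E y y) :
    h.cl x hx = h.cl y hy ↔ E x y :=
  ⟨fun e => Quotient.exact e, fun e => Quotient.sound e⟩

theorem NRel.ind (h : NRel c E F) (q : h.Q) : ∃ x hx, h.cl x hx = q := by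
  obtain ⟨⟨x, hx⟩, rfl⟩ := Quotient.exists_rep q
  exact ⟨x, hx, rfl⟩

/-- the law -/
def NRel.op (h : NRel c E F) (p q : h.Q) : h.Q :=
  Quotient.map₂ (sa := h.setoid) (sb := h.setoid) (sc := h.setoid)
    (fun (x y : {x : V // E x x}) => (⟨F x y, h.mem x.2 y.2⟩ : {x : V // E x x}))
    (fun _ _ e _ _ f => h.compat _ _ _ _ e f) p q

theorem NRel.op_cl (h : NRel c E F) {x y : V} (hx : E x x) (hy : E y y) :
    h.op (h.cl x hx) (h.cl y hy) = h.cl (F x y) (h.mem hx hy) := rfl

/-- the neutral element -/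
noncomputable def NRel.e (h : NRel c E F) : h.Q := h.cl h.unit.choose h.unit.choose_spec.1

theorem NRel.exists_iv (h : NRel c E F) (p : h.Q) : ∃ q, h.op q p = h.e := by
  obtain ⟨x, hx, rfl⟩ := h.ind p
  obtain ⟨y, hy, e⟩ := (h.unit.choose_spec.2 x hx).2
  exact ⟨h.cl y hy, (h.cl_eq _ _).2 e⟩

noncomputable instance NRel.group (h : NRel c E F) : Group h.Q :=
  letI : Mul h.Q := ⟨h.op⟩
  letI : One h.Q := ⟨h.e⟩
  letI : Inv h.Q := ⟨fun p => (h.exists_iv p).choose⟩
  Group.ofLeftAxioms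
    (by
      intro a b c
      obtain ⟨x, hx, rfl⟩ := h.ind a
      obtain ⟨y, hy, rfl⟩ := h.ind b
      obtain ⟨z, hz, rfl⟩ := h.ind c
      exact (h.cl_eq _ _).2 (h.assoc x y z hx hy hz))
    (by
      intro a
      obtain ⟨x, hx, rfl⟩ := h.ind a
      exact (h.cl_eq _ _).2 (h.unit.choose_spec.2 x hx).1)
    (fun a => (h.exists_iv a).choose_spec)

theorem NRel.mul_cl (h : NRel c E F) {x y : V} (hx : E x x) (hy : E y y) :
    h.cl x hx * h.cl y hy = h.cl (F x y) (h.mem hx hy) := rfl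

/-- The relation `ZR` describes the upper central series. -/
theorem zr_iff {G : Type} [Group G] (cls : V → G) (h1 : ∀ g, ∃ x, E x x ∧ cls x = g)
    (h2 : ∀ x y, E x x → E y y → E (F x y) (F x y) ∧ cls (F x y) = cls x * cls y)
    (h3 : ∀ x y, E x y ↔ E x x ∧ E y y ∧ cls x = cls y) (i : ℕ) :
    ∀ x, E x x → (ZR E F i x ↔ cls x ∈ Subgroup.upperCentralSeries G i) := by
  induction i with
  | zero =>
    intro x hx
    rw [Subgroup.upperCentralSeries_zero, Subgroup.mem_bot]
    show E (F x x) x ↔ _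
    rw [h3, (h2 x x hx hx).2]
    constructor
    · rintro ⟨_, _, h⟩
      exact mul_eq_left.1 h
    · intro h
      refine ⟨(h2 x x hx hx).1, hx, ?_⟩
      rw [h, mul_one]
  | succ i ih =>
    intro x hx
    rw [Subgroup.mem_upperCentralSeries_succ_iff]
    constructor
    · intro h g
      obtain ⟨y, hy, rfl⟩ := h1 g
      obtain ⟨z, hz, e⟩ := h1 (cls x * cls y * (cls x)⁻¹ * (cls y)⁻¹)
      rw [commutatorElement_def, ← e]
      refine (ih z hz).1 (h y z hy hz ?_)
      refine (h3 _ _).2 ⟨(h2 _ _ hz (h2 y x hy hx).1).1, (h2 x y hx hy).1, ?_⟩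
      rw [(h2 _ _ hz (h2 y x hy hx).1).2, (h2 y x hy hx).2, (h2 x y hx hy).2, e]
      group
    · intro h y z hy hz e
      refine (ih z hz).2 ?_
      obtain ⟨_, _, e1⟩ := (h3 _ _).1 e
      rw [(h2 _ _ hz (h2 y x hy hx).1).2, (h2 y x hy hx).2, (h2 x y hx hy).2] at e1
      have e2 : cls z = cls x * cls y * (cls x)⁻¹ * (cls y)⁻¹ := by
        rw [← e1]
        group
      rw [e2, ← commutatorElement_def]
      exact h (cls y)

theorem NRel.nilp (h : NRel c E F) : Subgroup.upperCentralSeries h.Q c = ⊤ := by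
  rw [eq_top_iff]
  intro q _
  obtain ⟨x, hx, rfl⟩ := h.ind q
  classical
  have key := zr_iff (E := E) (F := F) (G := h.Q)
    (fun x => if hx : E x x then h.cl x hx else 1) (fun g => by
      obtain ⟨x, hx, rfl⟩ := h.ind g
      exact ⟨x, hx, dif_pos hx⟩) (fun x y hx hy => by
      refine ⟨h.mem hx hy, ?_⟩
      beta_reduce
      rw [dif_pos (h.mem hx hy), dif_pos hx, dif_pos hy]
      rfl) (fun x y => by
      constructor
      · intro e
        have hx := h.left e
        have hy := h.left (h.symm _ _ e)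
        refine ⟨hx, hy, ?_⟩
        beta_reduce
        rw [dif_pos hx, dif_pos hy]
        exact (h.cl_eq _ _).2 e
      · rintro ⟨hx, hy, e⟩
        beta_reduce at e
        rw [dif_pos hx, dif_pos hy] at e
        exact (h.cl_eq _ _).1 e) c x hx
  have h2 := key.1 (h.nil x hx)
  beta_reduce at h2
  rwa [dif_pos hx] at h2

theorem NRel.nilpotent (h : NRel c E F) : Group.IsNilpotent h.Q := ⟨c, h.nilp⟩

/-- A nilpotent group with representatives defines such a relation. -/
theorem nrel_of {G : Type} [Group G] (hG : Subgroup.upperCentralSeries G c = ⊤) (cls : V → G)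
    (h1 : ∀ g, ∃ x, E x x ∧ cls x = g)
    (h2 : ∀ x y, E x x → E y y → E (F x y) (F x y) ∧ cls (F x y) = cls x * cls y)
    (h3 : ∀ x y, E x y ↔ E x x ∧ E y y ∧ cls x = cls y) : NRel c E F where
  symm x y e := by
    obtain ⟨a, b, c⟩ := (h3 x y).1 e
    exact (h3 y x).2 ⟨b, a, c.symm⟩
  trans x y z e f := by
    obtain ⟨a, b, c⟩ := (h3 x y).1 e
    obtain ⟨a', b', c'⟩ := (h3 y z).1 f
    exact (h3 x z).2 ⟨a, b', c.trans c'⟩
  compat x x' y y' e f := by
    obtain ⟨a, b, c⟩ := (h3 x x').1 e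
    obtain ⟨a', b', c'⟩ := (h3 y y').1 f
    refine (h3 _ _).2 ⟨(h2 x y a a').1, (h2 x' y' b b').1, ?_⟩
    rw [(h2 x y a a').2, (h2 x' y' b b').2, c, c']
  assoc x y z hx hy hz := by
    have a := h2 x y hx hy
    have b := h2 y z hy hz
    refine (h3 _ _).2 ⟨(h2 _ _ a.1 hz).1, (h2 _ _ hx b.1).1, ?_⟩
    rw [(h2 _ _ a.1 hz).2, (h2 _ _ hx b.1).2, a.2, b.2, mul_assoc]
  unit := by
    obtain ⟨e, he, e1⟩ := h1 1
    refine ⟨e, he, fun x hx => ⟨?_, ?_⟩⟩
    · refine (h3 _ _).2 ⟨(h2 _ _ he hx).1, hx, ?_⟩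
      rw [(h2 _ _ he hx).2, e1, one_mul]
    · obtain ⟨y, hy, e2⟩ := h1 (cls x)⁻¹
      refine ⟨y, hy, (h3 _ _).2 ⟨(h2 _ _ hy hx).1, he, ?_⟩⟩
      rw [(h2 _ _ hy hx).2, e1, e2, inv_mul_cancel]
  nil x hx := (zr_iff cls h1 h2 h3 c x hx).2 (by rw [hG]; exact Subgroup.mem_top _)

theorem card_of {G : Type} [Group G] (cls : V → G) (h1 : ∀ g, ∃ x, E x x ∧ cls x = g)
    (h3 : ∀ x y, E x y ↔ E x x ∧ E y y ∧ cls x = cls y) (h : NRel c E F) :
    Nat.card h.Q = Nat.card G := by
  refine Nat.card_congr (Equiv.ofBijective (fun q : h.Q => Quotient.lift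
    (fun x : {x : V // E x x} => cls x) (fun x y e => ((h3 _ _).1 e).2.2) q) ⟨?_, ?_⟩)
  · intro a b e
    obtain ⟨x, hx, rfl⟩ := h.ind a
    obtain ⟨y, hy, rfl⟩ := h.ind b
    exact (h.cl_eq _ _).2 ((h3 _ _).2 ⟨hx, hy, e⟩)
  · intro g
    obtain ⟨x, hx, e⟩ := h1 g
    exact ⟨h.cl x hx, e⟩

end Pool.Agent.GOr
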