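import Pool.Agent.GOr.Fld
import Pool.Agent.CvG.Irr
import Pool.Agent.CvQ.Fo
import Pool.Agent.PtC.Final

/-!
# First-order families of nilpotent groups over finite fields have definable orders: main theorem
-/

set_option autoImplicit false

noncomputable section

namespace Pool.Agent.GOr

open Polynomial Pool.Agent.PRc Pool.Agent.Grz Pool.Agent.ECD Pool.Agent.Cov Pool.Agent.FOG
open scoped Classical

/-- `G` is presented over `K` by the relations `X`, `E` and the functions `F` with the parameters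
`a` -/
abbrev Pr (c : ℕ) {δ ε : Type} (X : FR (δ ⊕ ε)) (E : FR (δ ⊕ δ ⊕ ε)) (F : δ → FF (δ ⊕ δ ⊕ ε))
    (K : Type) [Field K] (a : ε → K) (G : Type) [Group G] (cls : (δ → K) → G) : Prop :=
  Presents c (fun x => X K (Sum.elim x a)) (fun x y => E K (Sum.elim x (Sum.elim y a)))
    (fun x y i => F i K (Sum.elim x (Sum.elim y a))) G cls

section

variable {c : ℕ} {δ ε : Type} {X : FR (δ ⊕ ε)} {E : FR (δ ⊕ δ ⊕ ε)} {F : δ → FF (δ ⊕ δ ⊕ ε)}

/-- isomorphic fields -/
private theorem tr (hX : PRQ X) (hE : PRQ E) (hF : ∀ i, PRF (F i)) {K K' : Type} [Field K]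
    [Field K'] (f : K ≃+* K') (a : ε → K) :
    Function.Surjective (fun (x : δ → K) i => f (x i)) ∧
    (∀ x : δ → K, X K (Sum.elim x a) ↔
      X K' (Sum.elim (fun i => f (x i)) fun i => f (a i))) ∧
    (∀ x y : δ → K, E K (Sum.elim x (Sum.elim y a)) ↔
      E K' (Sum.elim (fun i => f (x i)) (Sum.elim (fun i => f (y i)) fun i => f (a i)))) ∧
    (∀ x y : δ → K, (fun i => f (F i K (Sum.elim x (Sum.elim y a)))) =
      fun i => F i K'
        (Sum.elim (fun i => f (x i)) (Sum.elim (fun i => f (y i)) fun i => f (a i)))) := by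
  have e2 : ∀ x : δ → K, (fun i => f (Sum.elim x a i)) =
      Sum.elim (fun i => f (x i)) fun i => f (a i) := by
    intro x
    funext i
    rcases i with i | i <;> rfl
  have e3 : ∀ x y : δ → K, (fun i => f (Sum.elim x (Sum.elim y a) i)) =
      Sum.elim (fun i => f (x i)) (Sum.elim (fun i => f (y i)) fun i => f (a i)) := by
    intro x y
    funext i
    rcases i with i | i | i <;> rfl
  refine ⟨fun y => ⟨fun i => f.symm (y i), funext fun i => f.apply_symm_apply _⟩,
    fun x => ?_, fun x y => ?_, fun x y => ?_⟩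
  · have h := prq_iso hX f (Sum.elim x a)
    rwa [e2] at h
  · have h := prq_iso hE f (Sum.elim x (Sum.elim y a))
    rwa [e3] at h
  · funext i
    have h := prf_iso (hF i) f (Sum.elim x (Sum.elim y a))
    rwa [e3] at h

private theorem pres_pull (hX : PRQ X) (hE : PRQ E) (hF : ∀ i, PRF (F i)) {K K' : Type}
    [Field K] [Field K'] (f : K ≃+* K') (a : ε → K)
    {G : Type} [Group G] {cls : (δ → K') → G} (h : Pr c X E F K' (fun i => f (a i)) G cls) :
    Pr c X E F K a G fun x => cls fun i => f (x i) := by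
  obtain ⟨h1, h2, h3, h4⟩ := tr hX hE hF f a
  exact Presents.pull h h1 h2 h3 h4

private theorem card_le [Finite δ] {K : Type} [Field K] [Finite K] {a : ε → K}
    {G : Type} [Group G] {cls : (δ → K) → G} (h : Pr c X E F K a G cls) :
    Nat.card G ≤ Nat.card K ^ Nat.card δ := by
  have hs : Function.Surjective cls := fun g => by
    obtain ⟨x, -, hx⟩ := h.onto g
    exact ⟨x, hx⟩
  refine (Nat.card_le_card_of_surjective _ hs).trans (le_of_eq ?_)
  rw [Nat.card_fun]

end

/-- the polynomial is irreducible -/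
private def Irr (s : ℕ) (p : ℕ) (b : Fin s → ℕ) : Prop :=
  ∃ h : p.Prime, haveI := Fact.mk h;
    Irreducible (X ^ s + ∑ l : Fin s, C ((b l : ℕ) : ZMod p) * X ^ (l : ℕ))

private theorem irr_def (s : ℕ) {n : ℕ} {p : (Fin n → ℕ) → ℕ} {b : Fin s → (Fin n → ℕ) → ℕ}
    (hp : DFun n p) (hb : ∀ l, DFun n (b l)) : Delta0 n (fun v => Irr s (p v) fun l => b l v) :=
  prq_delta (CvD.irp_prq s) (a := b) hp hb

/-- **Main theorem for relations.** -/
theorem top_pr (c s : ℕ) {δ ε : Type} [Finite δ] [Finite ε] {X : FR (δ ⊕ ε)}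
    {E : FR (δ ⊕ δ ⊕ ε)} {F : δ → FF (δ ⊕ δ ⊕ ε)} (hX : PRQ X) (hE : PRQ E)
    (hF : ∀ i, PRF (F i)) :
    ∃ N : ℕ → (Fin s → ℕ) → (ε → Fin s → ℕ) → ℕ,
      (∀ (n : ℕ) (m : (Fin n → ℕ) → ℕ) (b : Fin s → (Fin n → ℕ) → ℕ)
        (a : ε → Fin s → (Fin n → ℕ) → ℕ), DFun n m → (∀ l, DFun n (b l)) →
        (∀ i l, DFun n (a i l)) →
        DFun n (fun v => N (m v) (fun l => b l v) fun i l => a i l v) ∧
        DFun n (fun v => ∏ p ∈ (m v).primeFactors, N p (fun l => b l v) fun i l => a i l v)) ∧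
      (∀ (p : ℕ) (b : Fin s → ℕ) (K : Type) [Field K] (t : K), IsField p s b K t →
        ∀ (a : ε → Fin s → ℕ) (G : Type) [Group G] (cls : (δ → K) → G),
          Pr c X E F K (fun i => elt t (a i)) G cls → N p b a = Nat.card G) ∧
      ∀ (p : ℕ) (b : Fin s → ℕ) (a : ε → Fin s → ℕ),
        (¬ ∃ (K : Type) (_ : Field K) (t : K) (G : Type) (_ : Group G) (cls : (δ → K) → G),
          IsField p s b K t ∧ Pr c X E F K (fun i => elt t (a i)) G cls) → N p b a = 0 := by
  rcases Nat.eq_zero_or_pos s with hs | hs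
  · subst hs
    refine ⟨fun _ _ _ => 0, fun n m b a hm _ _ => ⟨DFun.const 0, ?_⟩, ?_, fun _ _ _ _ => rfl⟩
    · refine PtC.dfun_prodPF (g := fun _ _ => 0) (B := fun _ => 1) (DFun.const 0) hm
        (DFun.const 1) fun v => ?_
      exact Finset.prod_le_one' fun _ _ => Nat.zero_le _
    · intro p b K _ t h
      exact absurd h.pos (lt_irrefl 0)
  obtain ⟨N, hN, key⟩ := card_n c s hs hX hE hF
  set A : ℕ := s * Nat.card δ with hA
  have main : ∀ (p : ℕ) (b : Fin s → ℕ) (K : Type) [Field K] (t : K), IsField p s b K t →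
      ∀ (a : ε → Fin s → ℕ), Irr s p b ∧
        (∀ (G : Type) [Group G] (cls : (δ → K) → G),
          Pr c X E F K (fun i => elt t (a i)) G cls →
            N p b a = Nat.card G ∧ Nat.card G ≤ p ^ A) := by
    intro p b K _ t h a
    obtain ⟨hi, f, hf⟩ := h.iso
    haveI := Fact.mk h.prime
    have h1 := key p (hp p s b) hp_monic hp_deg b hp_coeff a
    refine ⟨⟨h.prime, hi.out⟩, fun G _ cls hG => ?_⟩
    have e : (fun i => f (el (hp p s b) (a i))) = fun i => elt t (a i) :=
      funext fun i => hf (a i)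
    have := h.finite
    refine ⟨h1.1 G _ (pres_pull hX hE hF (K' := K) f (fun i => el (hp p s b) (a i))
      (by rw [e]; exact hG)), ?_⟩
    have h2 := card_le hG
    rwa [h.card, ← pow_mul] at h2
  refine ⟨fun p b a => min (if Irr s p b then N p b a else 0) (p ^ A), ?_, ?_, ?_⟩
  · intro n m b a hm hb ha
    refine ⟨DFun.min (DFun.ite (irr_def s hm hb) (hN hm hb ha) (DFun.const 0))
      (PTr.DFun.powConst hm A), ?_⟩
    refine PtC.dfun_prodPF (g := fun p v => min (if Irr s p (fun l => b l v) then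
      N p (fun l => b l v) (fun i l => a i l v) else 0) (p ^ A)) (B := fun v => m v ^ A + 1)
      ?_ hm ((PTr.DFun.powConst hm A).add (DFun.const 1)) ?_
    · exact DFun.min (DFun.ite (irr_def s (DFun.proj 0) fun l => (hb l).weak)
        (hN (DFun.proj 0) (fun l => (hb l).weak) fun i l => (ha i l).weak) (DFun.const 0))
        (PTr.DFun.powConst (DFun.proj 0) A)
    · intro v
      rcases Nat.eq_zero_or_pos (m v) with h0 | h0
      · rw [h0, Nat.primeFactors_zero, Finset.prod_empty]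
        exact Nat.le_add_left 1 _
      · calc _ ≤ ∏ p ∈ (m v).primeFactors, p ^ A :=
              Finset.prod_le_prod' fun p _ => min_le_right _ _
          _ = (∏ p ∈ (m v).primeFactors, p) ^ A := Finset.prod_pow _ _ _
          _ ≤ m v ^ A := Nat.pow_le_pow_left (Nat.le_of_dvd h0 (Nat.prod_primeFactors_dvd _)) A
          _ ≤ m v ^ A + 1 := Nat.le_succ _
  · intro p b K _ t h a G _ cls hG
    obtain ⟨h1, h2⟩ := main p b K t h a
    obtain ⟨h3, h4⟩ := h2 G cls hG
    show min (if Irr s p b then N p b a else 0) (p ^ A) = Nat.card G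
    rw [if_pos h1, h3]
    exact min_eq_left h4
  · intro p b a hn
    show min (if Irr s p b then N p b a else 0) (p ^ A) = 0
    by_cases h1 : Irr s p b
    · obtain ⟨hp1, hi⟩ := h1
      haveI := Fact.mk hp1
      haveI : Fact (Irreducible (hp p s b)) := ⟨hi⟩
      have h2 := (key p (hp p s b) hp_monic hp_deg b hp_coeff a).2
      rw [if_pos ⟨hp1, hi⟩, h2, Nat.zero_min]
      rintro ⟨G, _, cls, hG⟩
      refine hn ⟨AdjoinRoot (hp p s b), inferInstance, AdjoinRoot.root _, G, inferInstance, cls,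
        isField_root, ?_⟩
      have e : (fun i => elt (AdjoinRoot.root (hp p s b)) (a i)) =
          fun i => el (hp p s b) (a i) := funext fun i => elt_el (a i)
      rw [e]
      exact hG
    · rw [if_neg h1, Nat.zero_min]

/-- **Main theorem.** -/
theorem top (s c d k : ℕ) (X : FirstOrder.Language.ring.Formula (Fin d ⊕ Fin k))
    (E : FirstOrder.Language.ring.Formula (Fin d ⊕ Fin d ⊕ Fin k))
    (F : Fin d → FF (Fin d ⊕ Fin d ⊕ Fin k)) (hF : ∀ i, PRF (F i)) :
    ∃ N : ℕ → (Fin s → ℕ) → (Fin k → Fin s → ℕ) → ℕ,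
      (∀ (n : ℕ) (m : (Fin n → ℕ) → ℕ) (b : Fin s → (Fin n → ℕ) → ℕ)
        (a : Fin k → Fin s → (Fin n → ℕ) → ℕ), DFun n m → (∀ l, DFun n (b l)) →
        (∀ i l, DFun n (a i l)) →
        DFun n (fun v => N (m v) (fun l => b l v) fun i l => a i l v) ∧
        DFun n (fun v => ∏ p ∈ (m v).primeFactors, N p (fun l => b l v) fun i l => a i l v)) ∧
      (∀ (p : ℕ) (b : Fin s → ℕ) (K : Type) [Field K] (t : K), IsField p s b K t →
        ∀ (a : Fin k → Fin s → ℕ) (G : Type) [Group G] (cls : (Fin d → K) → G),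
          FoPresents c X E F K (fun i => elt t (a i)) G cls → N p b a = Nat.card G) ∧
      ∀ (p : ℕ) (b : Fin s → ℕ) (a : Fin k → Fin s → ℕ),
        (¬ ∃ (K : Type) (_ : Field K) (t : K) (G : Type) (_ : Group G)
          (cls : (Fin d → K) → G), IsField p s b K t ∧
          FoPresents c X E F K (fun i => elt t (a i)) G cls) → N p b a = 0 :=
  top_pr c s (CvQ.fo_prq X) (CvQ.fo_prq E) hF

end Pool.Agent.GOr
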